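import Pool.Agent.MP_3c4208_co.Count

set_option autoImplicit false

namespace Pool.Agent.MP_3c4208_co.Q

open Pool.Agent.MP_3c4208_co

/-- Strands through the last `24 k + 4` columns, each meeting a cell outside `H`. -/
def FolS : Prop := ∀ (n N k : ℤ) (H : Finset (ℤ × ℤ)), 1 ≤ k → 2 * k ≤ N →
  (H.card : ℤ) ≤ 6 * k * k → ∃ g : ℤ → Equiv.Perm ℤ,
    (∀ x y, (0 ≤ g x y ∧ g x y < N) ↔ (0 ≤ y ∧ y < N)) ∧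
    (∀ x y, x ≤ n - (24 * k + 4) ∨ n - 1 ≤ x → g x y = y) ∧
    (∀ x y, g (x + 1) y - g x y ≤ 1 ∧ g x y - g (x + 1) y ≤ 1) ∧
    ∀ y, 0 ≤ y → y < N → ∃ x, n - (24 * k + 4) ≤ x ∧ x < n ∧ (x, g x y) ∉ H

/-- A path on the complement of a corner rectangle whose lifts stay outside the rectangle. -/
def PathS : Prop := ∀ (n k a b : ℤ) (H : Finset (ℤ × ℤ)), 1 ≤ k → 96 * k + 16 ≤ n →
  (H.card : ℤ) ≤ 6 * k * k → 0 ≤ a → 2 * a ≤ n + 1 → 0 ≤ b → 2 * b ≤ n + 1 →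
  ∃ L : List (ℤ × ℤ), L.Nodup ∧ L.IsChain Near ∧
    (∀ p, p ∈ L ↔ InBox n p ∧ (a ≤ p.1 ∨ b ≤ p.2)) ∧
    ∀ (ψ : ℤ × ℤ → ℤ × ℤ) (t₁ t₂ : ℤ), (∀ p q, Cons L p q → Near (ψ p) (ψ q)) →
      (∀ u ∈ L, u ∉ H → ψ u = (u.1 + t₁, u.2 + t₂)) →
      ∀ p ∈ L, a + t₁ ≤ (ψ p).1 ∨ b + t₂ ≤ (ψ p).2

/-- An isometry on all but few cells is a symmetry up to a translation. -/
def IsoS : Prop := ∀ (n k : ℤ) (H : Finset (ℤ × ℤ)) (X Y : ℤ × ℤ → ℤ), 1 ≤ k → 96 * k + 16 ≤ n →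
  (H.card : ℤ) ≤ 6 * k * k → Iso n (fun u => u ∉ H) X Y →
  ∃ (r₁ r₂ t : Bool) (t₁ t₂ : ℤ), ∀ u, InBox n u → u ∉ H →
    (X u, Y u) = symZ n r₁ r₂ t (u.1 + t₁, u.2 + t₂)

/-- The lower left corner: no translation, and equal letters. -/
def CornS : Prop := ∀ (n k t₁ t₂ : ℤ) (H : Finset (ℤ × ℤ)) (B B' : ℤ × ℤ → ℕ), 1 ≤ k →
  96 * k + 16 ≤ n → (H.card : ℤ) ≤ 6 * k * k → Sim n B B' →
  (∀ u, InBox n u → u ∉ H → ∀ p, InBox n p → B' p = B u → p = (u.1 + t₁, u.2 + t₂)) →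
  (0 ≤ t₁ → 0 ≤ t₂ → t₁ = 0 ∧ t₂ = 0) ∧
  (t₁ = 0 → t₂ = 0 → ∀ c, InBox n c → 2 * c.1 ≤ n - 1 → 2 * c.2 ≤ n - 1 → B' c = B c)

def MainS : Prop := ∀ (n : ℕ) (lam : List ℕ), 3 ≤ n → lam.sum = n ^ 2 →
  (4 * (lam.filter (fun a => 2 ≤ a)).sum ≤ n ∨ 2500 * (lam.filter (fun a => 2 ≤ a)).sum ≤ n ^ 2) →
  ∀ B : Fin n × Fin n → ℕ, HasType B lam → Solvable lam B

end Pool.Agent.MP_3c4208_co.Q
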