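import Mathlib.Data.Int.Interval
import Pool.Agent.MP_3c4208_co.Q.Spec

/-! The lower left corner: counting along paths that avoid a rectangle. -/

set_option autoImplicit false

namespace Pool.Agent.MP_3c4208_co.Q

open Pool.Agent.MP_3c4208_co Finset

namespace Corn

/-- the box -/
noncomputable def box (n : ℤ) : Finset (ℤ × ℤ) := Ico 0 n ×ˢ Ico 0 n

/-- the box without a corner rectangle -/
noncomputable def D (n a b : ℤ) : Finset (ℤ × ℤ) := (box n).filter fun p => a ≤ p.1 ∨ b ≤ p.2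

theorem mem_box {n : ℤ} {p : ℤ × ℤ} : p ∈ box n ↔ InBox n p := by
  simp only [box, mem_product, mem_Ico, InBox, and_assoc]

theorem mem_D {n a b : ℤ} {p : ℤ × ℤ} : p ∈ D n a b ↔ InBox n p ∧ (a ≤ p.1 ∨ b ≤ p.2) := by
  rw [D, mem_filter, mem_box]

theorem two {α : Type} {L : List α} {p q : α} (hp : p ∈ L) (hq : q ∈ L) (h : p ≠ q) :
    2 ≤ L.length := by
  rcases L with _ | ⟨x, _ | ⟨y, L⟩⟩
  · simp at hp
  · exact absurd ((List.mem_singleton.1 hp).trans (List.mem_singleton.1 hq).symm) h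
  · simp

theorem lift (h : PathS) {n k t₁ t₂ : ℤ} {H : Finset (ℤ × ℤ)} {B B' : ℤ × ℤ → ℕ} (hk : 1 ≤ k)
    (hn : 96 * k + 16 ≤ n) (hH : (H.card : ℤ) ≤ 6 * k * k) (hS : Sim n B B')
    (hU : ∀ u, InBox n u → u ∉ H → ∀ p, InBox n p → B' p = B u → p = (u.1 + t₁, u.2 + t₂))
    {a b : ℤ} (a0 : 0 ≤ a) (a1 : 2 * a ≤ n + 1) (b0 : 0 ≤ b) (b1 : 2 * b ≤ n + 1) :
    ∃ ψ : ℤ × ℤ → ℤ × ℤ, (∀ p ∈ D n a b, ψ p ∈ D n (a + t₁) (b + t₂) ∧ B' (ψ p) = B p) ∧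
      Set.InjOn ψ (D n a b) := by
  obtain ⟨L, h1, h2, h3, h4⟩ := h n k a b H hk hn hH a0 a1 b0 b1
  have hl : 2 ≤ L.length := two (p := (n - 1, 0)) (q := (n - 1, 1))
    ((h3 _).2 (by simp only [InBox]; omega)) ((h3 _).2 (by simp only [InBox]; omega)) (by simp)
  obtain ⟨ψ, g1, g2, g3⟩ := hS L hl h1 h2 fun p hp => ((h3 p).1 hp).1
  have g4 := h4 ψ t₁ t₂ g3 fun u hu hu' => hU u ((h3 u).1 hu).1 hu' _ (g1 u hu).1 (g1 u hu).2
  have m : ∀ p ∈ D n a b, p ∈ L := fun p hp => (h3 p).2 (mem_D.1 hp)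
  exact ⟨ψ, fun p hp => ⟨mem_D.2 ⟨(g1 p (m p hp)).1, g4 p (m p hp)⟩, (g1 p (m p hp)).2⟩,
    fun p hp q hq => g2 p (m p hp) q (m q hq)⟩

theorem sum_eq {S : Finset (ℤ × ℤ)} {B B' : ℤ × ℤ → ℕ} {ψ : ℤ × ℤ → ℤ × ℤ}
    (h1 : ∀ p ∈ S, ψ p ∈ S ∧ B' (ψ p) = B p) (h2 : Set.InjOn ψ S) :
    ∑ p ∈ S, ((B' p : ℤ) - B p) = 0 := by
  have e : S.image ψ = S := eq_of_subset_of_card_le
    (image_subset_iff.2 fun p hp => (h1 p hp).1) (card_image_of_injOn h2).ge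
  rw [sum_sub_distrib, sub_eq_zero]
  conv_lhs => rw [← e, sum_image h2]
  exact sum_congr rfl fun p hp => by rw [(h1 p hp).2]

theorem incl {n : ℤ} (δ : ℤ × ℤ → ℤ) {c : ℤ × ℤ} (hc : InBox n c) :
    δ c = ∑ p ∈ D n (c.1 + 1) c.2, δ p + ∑ p ∈ D n c.1 (c.2 + 1), δ p - ∑ p ∈ D n c.1 c.2, δ p -
      ∑ p ∈ D n (c.1 + 1) (c.2 + 1), δ p := by
  simp only [D, sum_filter]
  rw [← sum_add_distrib, ← sum_sub_distrib, ← sum_sub_distrib, sum_eq_single_of_mem c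
    (mem_box.2 hc) fun p _ hp => ?_]
  · simp
  · have : p.1 ≠ c.1 ∨ p.2 ≠ c.2 := by
      by_contra h
      push Not at h
      exact hp (Prod.ext h.1 h.2)
    split_ifs <;> omega

end Corn

open Corn in
theorem corn (h : PathS) : CornS := by
  intro n k t₁ t₂ H B B' hk hn hH hS hU
  refine ⟨fun h1 h2 => ?_, fun h1 h2 c hc c1 c2 => ?_⟩
  · obtain ⟨ψ, g1, g2⟩ := lift h hk hn hH hS hU (a := 1) (b := 1) (by omega) (by omega) (by omega)
      (by omega)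
    have e : D n (1 + t₁) (1 + t₂) = D n 1 1 := eq_of_subset_of_card_le
      (fun p hp => mem_D.2 ⟨(mem_D.1 hp).1, by have := (mem_D.1 hp).2; omega⟩)
      (card_le_card_of_injOn ψ (fun p hp => (g1 p hp).1) g2)
    have e1 : ((1, 0) : ℤ × ℤ) ∈ D n 1 1 := mem_D.2 (by simp only [InBox]; omega)
    have e2 : ((0, 1) : ℤ × ℤ) ∈ D n 1 1 := mem_D.2 (by simp only [InBox]; omega)
    rw [← e, mem_D] at e1 e2
    have := e1.2
    have := e2.2
    simp only at *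
    omega
  · subst h1 h2
    have z : ∀ a b, 0 ≤ a → 2 * a ≤ n + 1 → 0 ≤ b → 2 * b ≤ n + 1 →
        ∑ p ∈ D n a b, ((B' p : ℤ) - B p) = 0 := fun a b a0 a1 b0 b1 => by
      obtain ⟨ψ, g1, g2⟩ := lift h hk hn hH hS hU a0 a1 b0 b1
      rw [add_zero, add_zero] at g1
      exact sum_eq g1 g2
    have e := incl (fun p => (B' p : ℤ) - B p) hc
    have p1 := hc.1
    have p2 := hc.2.2.1
    rw [z _ _ (by omega) (by omega) p2 (by omega), z _ _ p1 (by omega) (by omega) (by omega),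
      z _ _ p1 (by omega) p2 (by omega), z _ _ (by omega) (by omega) (by omega) (by omega)] at e
    omega

end Pool.Agent.MP_3c4208_co.Q
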