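import Pool.Agent.MP_3c4208_co.Q.Spec

/-! Strands that meet a cell outside a small set. -/

set_option autoImplicit false

namespace Pool.Agent.MP_3c4208_co.Q

namespace Fol

/-- The rows `[0, N)` are kept. -/
def Kp (N : ℤ) (σ : Equiv.Perm ℤ) : Prop := ∀ y, (0 ≤ σ y ∧ σ y < N) ↔ (0 ≤ y ∧ y < N)

/-- One step. -/
def St (σ τ : Equiv.Perm ℤ) : Prop := ∀ y, τ y - σ y ≤ 1 ∧ σ y - τ y ≤ 1

theorem Kp.mul {N : ℤ} {σ τ : Equiv.Perm ℤ} (h : Kp N σ) (h' : Kp N τ) : Kp N (σ * τ) :=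
  fun y => (h (τ y)).trans (h' y)

theorem ai (σ : Equiv.Perm ℤ) (y : ℤ) : σ (σ⁻¹ y) = y := σ.apply_symm_apply y

theorem Kp.inv {N : ℤ} {σ : Equiv.Perm ℤ} (h : Kp N σ) : Kp N σ⁻¹ := fun y => by
  have := h (σ⁻¹ y)
  rw [ai] at this
  exact this.symm

theorem step (N : ℤ) (S : Finset ℤ) (p q : ℤ → ℤ)
    (h1 : ∀ s ∈ S, (0 ≤ p s ∧ p s < N) ∧ (0 ≤ q s ∧ q s < N) ∧ q s - p s ≤ 1 ∧ p s - q s ≤ 1)
    (h2 : ∀ s ∈ S, ∀ t ∈ S, s ≠ t → p s ≠ p t ∧ p s ≠ q t ∧ q s ≠ q t) :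
    ∃ σ : Equiv.Perm ℤ, Kp N σ ∧ St 1 σ ∧ ∀ s ∈ S, σ (p s) = q s := by
  classical
  let f : ℤ → ℤ := fun y => if h : ∃ s ∈ S, p s = y then q h.choose
    else if h : ∃ s ∈ S, q s = y then p h.choose else y
  have a : ∀ s ∈ S, f (p s) = q s := fun s hs => by
    have h : ∃ t ∈ S, p t = p s := ⟨s, hs, rfl⟩
    have e : h.choose = s := by
      by_contra c
      exact (h2 _ h.choose_spec.1 s hs c).1 h.choose_spec.2
    simp only [f, dif_pos h, e]
  have b : ∀ s ∈ S, f (q s) = p s := fun s hs => by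
    by_cases h : ∃ t ∈ S, p t = q s
    · obtain ⟨t, ht, e⟩ := h
      have : t = s := by
        by_contra c
        exact (h2 t ht s hs c).2.1 e
      subst this
      rw [← e, a t ht, e]
    · have h' : ∃ t ∈ S, q t = q s := ⟨s, hs, rfl⟩
      have e : h'.choose = s := by
        by_contra c
        exact (h2 _ h'.choose_spec.1 s hs c).2.2 h'.choose_spec.2
      simp only [f, dif_neg h, dif_pos h', e]
  have c : ∀ y, (∃ s ∈ S, p s = y) ∨ (∃ s ∈ S, q s = y) ∨ f y = y := fun y => by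
    by_cases h : ∃ s ∈ S, p s = y
    · exact .inl h
    by_cases h' : ∃ s ∈ S, q s = y
    · exact .inr (.inl h')
    · exact .inr (.inr (by simp only [f, dif_neg h, dif_neg h']))
  have inv : Function.Involutive f := fun y => by
    rcases c y with ⟨s, hs, rfl⟩ | ⟨s, hs, rfl⟩ | h
    · rw [a s hs, b s hs]
    · rw [b s hs, a s hs]
    · rw [h, h]
  refine ⟨inv.toPerm f, fun y => ?_, fun y => ?_, a⟩
  · show (0 ≤ f y ∧ f y < N) ↔ _
    rcases c y with ⟨s, hs, rfl⟩ | ⟨s, hs, rfl⟩ | h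
    · rw [a s hs]; have := h1 s hs; omega
    · rw [b s hs]; have := h1 s hs; omega
    · rw [h]
  · show f y - y ≤ 1 ∧ y - f y ≤ 1
    rcases c y with ⟨s, hs, rfl⟩ | ⟨s, hs, rfl⟩ | h
    · rw [a s hs]; have := h1 s hs; omega
    · rw [b s hs]; have := h1 s hs; omega
    · rw [h]; omega

/-- The position of `s` at time `τ`. -/
def pos (T i j s τ : ℤ) : ℤ :=
  if s ≤ T then min T (s + max 0 (τ - j)) else max T (s - max 0 (τ - i))

theorem route1 (N k e : ℤ) (S : Finset ℤ) (hN : 2 * k ≤ N) (he : 0 ≤ e ∧ e ≤ 1)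
    (hS : ∀ s ∈ S, 0 ≤ s ∧ s < N) (hc : (S.card : ℤ) ≤ k) : ∃ h : ℤ → Equiv.Perm ℤ,
      (∀ x, x ≤ 0 → h x = 1) ∧ (∀ x, Kp N (h x)) ∧ (∀ x, St (h x) (h (x + 1))) ∧
      ∀ s ∈ S, h (3 * k + 1) s % 2 = e := by
  obtain ⟨i, hi⟩ : ∃ i : ℤ → ℤ, ∀ s, i s = ((S.filter (· < s)).card : ℤ) := ⟨_, fun _ => rfl⟩
  obtain ⟨j, hj⟩ : ∃ j : ℤ → ℤ, ∀ s, j s = ((S.filter (s < ·)).card : ℤ) := ⟨_, fun _ => rfl⟩
  have lt : ∀ {A B : Finset ℤ} (s : ℤ), A ⊆ B → s ∈ B → s ∉ A → (A.card : ℤ) < B.card :=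
    fun s h1 h2 h3 => Nat.cast_lt.2 (Finset.card_lt_card
      ((Finset.ssubset_iff_of_subset h1).2 ⟨s, h2, h3⟩))
  have b : ∀ s ∈ S, 0 ≤ i s ∧ i s < k ∧ 0 ≤ j s ∧ j s < k := fun s hs => by
    have a1 := lt (A := S.filter (· < s)) s (Finset.filter_subset _ _) hs (by simp)
    have a2 := lt (A := S.filter (s < ·)) s (Finset.filter_subset _ _) hs (by simp)
    rw [hi, hj]
    omega
  have m : ∀ s ∈ S, ∀ t ∈ S, s < t → i s < i t ∧ j t < j s := fun s hs t ht h => by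
    rw [hi, hi, hj, hj]
    exact ⟨lt s (Finset.monotone_filter_right _ fun _ _ a => lt_trans a h) (by simp [hs, h])
      (by simp), lt t (Finset.monotone_filter_right _ fun _ _ a => lt_trans h a) (by simp [ht, h])
      (by simp)⟩
  obtain ⟨T, hT⟩ : ∃ T : ℤ → ℤ, ∀ s, T s = 2 * (min s (N - 2 * k) / 2 + i s) + e := ⟨_, fun _ => rfl⟩
  have t1 : ∀ s ∈ S, 0 ≤ T s ∧ T s < N ∧ T s - s ≤ 2 * k ∧ s - T s ≤ 2 * k ∧ T s % 2 = e :=
    fun s hs => by
      have := b s hs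
      have := hS s hs
      rw [hT]
      omega
  have t2 : ∀ s ∈ S, ∀ t ∈ S, s < t → T s < T t := fun s hs t ht h => by
    have := m s hs t ht h
    rw [hT, hT]
    omega
  have o : ∀ (τ : ℤ), ∀ s ∈ S, ∀ t ∈ S, s < t → ∀ a c : ℤ, τ ≤ a → a ≤ τ + 1 → τ ≤ c → c ≤ τ + 1 →
      pos (T s) (i s) (j s) s a < pos (T t) (i t) (j t) t c := fun τ s hs t ht h a c _ _ _ _ => by
    have := m s hs t ht h
    have := t2 s hs t ht h
    unfold pos
    split_ifs <;> omega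
  choose σ s1 s2 s3 using fun τ : ℕ => step N S (fun s => pos (T s) (i s) (j s) s τ)
    (fun s => pos (T s) (i s) (j s) s (τ + 1)) (fun s hs => by
      have := t1 s hs
      have := hS s hs
      unfold pos
      split_ifs <;> omega) fun s hs t ht c => by
      rcases lt_or_gt_of_ne c with h | h
      · exact ⟨(o τ s hs t ht h _ _ (by omega) (by omega) (by omega) (by omega)).ne,
          (o τ s hs t ht h _ _ (by omega) (by omega) (by omega) (by omega)).ne,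
          (o τ s hs t ht h _ _ (by omega) (by omega) (by omega) (by omega)).ne⟩
      · exact ⟨(o τ t ht s hs h _ _ (by omega) (by omega) (by omega) (by omega)).ne',
          (o τ t ht s hs h _ _ (by omega) (by omega) (by omega) (by omega)).ne',
          (o τ t ht s hs h _ _ (by omega) (by omega) (by omega) (by omega)).ne'⟩
  let g : ℕ → Equiv.Perm ℤ := fun τ => Nat.rec 1 (fun t a => σ t * a) τ
  have g1 : ∀ τ, g (τ + 1) = σ τ * g τ := fun _ => rfl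
  have g2 : ∀ τ, Kp N (g τ) := fun τ => by
    induction τ with
    | zero => exact fun _ => Iff.rfl
    | succ τ ih => exact (s1 τ).mul ih
  have g3 : ∀ τ : ℕ, ∀ s ∈ S, g τ s = pos (T s) (i s) (j s) s τ := fun τ s hs => by
    induction τ with
    | zero =>
      have := b s hs
      show s = _
      unfold pos
      split_ifs <;> omega
    | succ τ ih => rw [g1, Equiv.Perm.mul_apply, ih, s3 τ s hs, Nat.cast_succ]
  refine ⟨fun x => g x.toNat, fun x hx => ?_, fun x => g2 _, fun x y => ?_, fun s hs => ?_⟩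
  · beta_reduce
    rw [show x.toNat = 0 by omega]
    rfl
  · beta_reduce
    by_cases hx : x < 0
    · rw [show x.toNat = 0 by omega, show (x + 1).toNat = 0 by omega]
      omega
    · rw [show (x + 1).toNat = x.toNat + 1 by omega, g1]
      exact s2 _ _
  · have := t1 s hs
    have := b s hs
    beta_reduce
    rw [g3 _ s hs]
    unfold pos
    split_ifs <;> omega

theorem route2 (N k : ℤ) (S R : Finset ℤ) (hN : 2 * k ≤ N) (hS : ∀ s ∈ S, 0 ≤ s ∧ s < N)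
    (hR : ∀ s ∈ R, 0 ≤ s ∧ s < N) (hc : (S.card : ℤ) ≤ k) (hd : (R.card : ℤ) ≤ k) :
    ∃ h : ℤ → Equiv.Perm ℤ, (∀ x, x ≤ 0 → h x = 1) ∧ (∀ x, Kp N (h x)) ∧
      (∀ x, St (h x) (h (x + 1))) ∧ ∀ s ∈ S, ∃ r, r ∉ R ∧ ∀ x, 6 * k + 2 ≤ x → h x s = r := by
  obtain ⟨u, u1, u2, u3, u4⟩ := route1 N k 0 S hN (by omega) hS hc
  obtain ⟨v, v1, v2, v3, v4⟩ := route1 N k 1 R hN (by omega) hR hd
  have k0 : 0 ≤ k := le_trans (by omega) hc
  let h : ℤ → Equiv.Perm ℤ := fun x =>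
    v (6 * k + 2 - max x (3 * k + 1)) * (v (3 * k + 1))⁻¹ * u (min x (3 * k + 1))
  have lo : ∀ x, x ≤ 3 * k + 1 → h x = u x := fun x hx => by
    simp only [h]
    rw [max_eq_right hx, min_eq_left hx, show 6 * k + 2 - (3 * k + 1) = 3 * k + 1 by ring,
      mul_inv_cancel, one_mul]
  have hi : ∀ x, 3 * k + 1 ≤ x → h x = v (6 * k + 2 - x) * ((v (3 * k + 1))⁻¹ * u (3 * k + 1)) :=
    fun x hx => by
      simp only [h]
      rw [max_eq_left hx, min_eq_right hx, mul_assoc]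
  refine ⟨h, fun x hx => (lo x (by omega)).trans (u1 x hx),
    fun x => ((v2 _).mul (v2 _).inv).mul (u2 _), fun x y => ?_, fun s hs =>
      ⟨(v (3 * k + 1))⁻¹ (u (3 * k + 1) s), fun c => ?_, fun x hx => ?_⟩⟩
  · by_cases hx : x < 3 * k + 1
    · rw [lo x (by omega), lo (x + 1) (by omega)]
      exact u3 x y
    · rw [hi x (by omega), hi (x + 1) (by omega),
        show 6 * k + 2 - x = 6 * k + 2 - (x + 1) + 1 by ring]
      exact (v3 _ _).symm
  · have a := v4 _ c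
    have := u4 s hs
    rw [ai] at a
    omega
  · rw [hi x (by omega), v1 _ (by omega), one_mul]
    rfl

theorem rows (N k c : ℤ) (H : Finset (ℤ × ℤ)) (hk : 1 ≤ k) (hH : (H.card : ℤ) ≤ 6 * k * k) :
    ∃ S : Finset ℤ, (∀ s ∈ S, 0 ≤ s ∧ s < N) ∧ (S.card : ℤ) ≤ k ∧
      ∀ y, 0 ≤ y → y < N → y ∉ S → ∃ x, c ≤ x ∧ x < c + 6 * k ∧ (x, y) ∉ H := by
  classical
  obtain ⟨S, hS⟩ : ∃ S : Finset ℤ, ∀ y, y ∈ S ↔ (0 ≤ y ∧ y < N) ∧
      ∀ x, c ≤ x → x < c + 6 * k → (x, y) ∈ H :=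
    ⟨(Finset.Ico 0 N).filter fun y => ∀ x, c ≤ x → x < c + 6 * k → (x, y) ∈ H, fun y => by
      rw [Finset.mem_filter, Finset.mem_Ico]⟩
  refine ⟨S, fun s hs => ((hS s).1 hs).1, ?_, fun y h0 h1 hy => ?_⟩
  · have a : Finset.Ico c (c + 6 * k) ×ˢ S ⊆ H := fun p hp =>
      ((hS _).1 (Finset.mem_product.1 hp).2).2 _ (Finset.mem_Ico.1 (Finset.mem_product.1 hp).1).1
        (Finset.mem_Ico.1 (Finset.mem_product.1 hp).1).2
    have b := (Nat.cast_le (α := ℤ)).2 (Finset.card_le_card a)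
    rw [Finset.card_product, Nat.cast_mul, Int.card_Ico_of_le _ _ (by omega),
      add_sub_cancel_left] at b
    exact le_of_mul_le_mul_left (b.trans hH) (by omega)
  · by_contra c'
    refine hy ((hS y).2 ⟨⟨h0, h1⟩, fun x x1 x2 => ?_⟩)
    by_contra c''
    exact c' ⟨x, x1, x2, c''⟩

end Fol

theorem fol : FolS := by
  intro n N k H hk hN hH
  obtain ⟨S, s1, s2, s3⟩ := Fol.rows N k (n - 6 * k) H hk hH
  obtain ⟨R, r1, r2, r3⟩ := Fol.rows N k (n - (18 * k + 2)) H hk hH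
  obtain ⟨h, h1, h2, h3, h4⟩ := Fol.route2 N k S R hN s1 r1 s2 r2
  refine ⟨fun x => h (min (x - (n - (24 * k + 4))) (n - 6 * k - x)), fun x => h2 _,
    fun x y hx => ?_, fun x y => ?_, fun y y0 y1 => ?_⟩
  · beta_reduce
    rw [h1 _ (by omega)]
    rfl
  · obtain ⟨a, ha⟩ : ∃ a, a = min (x - (n - (24 * k + 4))) (n - 6 * k - x) := ⟨_, rfl⟩
    obtain ⟨b, hb⟩ : ∃ b, b = min (x + 1 - (n - (24 * k + 4))) (n - 6 * k - (x + 1)) := ⟨_, rfl⟩
    beta_reduce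
    rw [← ha, ← hb]
    obtain e | e | e : b = a + 1 ∨ b = a ∨ a = b + 1 := by omega
    · rw [e]
      exact h3 a y
    · rw [e]
      omega
    · rw [e]
      exact (h3 b y).symm
  · by_cases hy : y ∈ S
    · obtain ⟨r, hr, e⟩ := h4 y hy
      have k1 := (h2 (6 * k + 2) y).2 ⟨y0, y1⟩
      rw [e _ le_rfl] at k1
      obtain ⟨x, x1, x2, x3⟩ := r3 r k1.1 k1.2 hr
      exact ⟨x, by omega, by omega, by beta_reduce; rw [e _ (by omega)]; exact x3⟩
    · obtain ⟨x, x1, x2, x3⟩ := s3 y y0 y1 hy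
      exact ⟨x, by omega, by omega, by beta_reduce; rw [h1 _ (by omega)]; exact x3⟩

end Pool.Agent.MP_3c4208_co.Q
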