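import Pool.Agent.MP_3c4208_co.Q.Spec
import Mathlib.Combinatorics.Pigeonhole
import Mathlib.Tactic.LinearCombination

/-! An isometry of the king distance on all but few cells is a symmetry up to a translation. -/

set_option autoImplicit false

namespace Pool.Agent.MP_3c4208_co.Q

open Pool.Agent.MP_3c4208_co

/-- Every `3 k × (2 k + 2)` rectangle has two good cells in one column. -/
def Two (k : ℤ) (U : ℤ × ℤ → Prop) : Prop := ∀ a b : ℤ, ∃ x y y' : ℤ, a ≤ x ∧ x < a + 3 * k ∧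
  b ≤ y ∧ y ≤ b + 2 * k + 1 ∧ b ≤ y' ∧ y' ≤ b + 2 * k + 1 ∧ y ≠ y' ∧ U (x, y) ∧ U (x, y')

theorem two_of_card {k : ℤ} (hk : 1 ≤ k) (H : Finset (ℤ × ℤ)) (hH : (H.card : ℤ) ≤ 6 * k * k) :
    Two k fun u => u ∉ H := by
  intro a b
  obtain ⟨m, rfl⟩ : ∃ m : ℕ, k = m := ⟨k.toNat, by omega⟩
  have h1 : H.card < (Finset.Ico a (a + 3 * m)).card * (2 * m + 1) := by
    rw [Int.card_Ico, show (a + 3 * m - a).toNat = 3 * m by omega]
    have h2 : H.card ≤ 6 * m * m := by exact_mod_cast hH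
    have h3 : 3 * m * (2 * m + 1) = 6 * m * m + 3 * m := by ring
    omega
  obtain ⟨x, hx, h2⟩ := Finset.exists_card_fiber_lt_of_card_lt_mul (f := Prod.fst) h1
  rw [Finset.mem_Ico] at hx
  obtain ⟨i, j, a1, a2, a3, a4, a5, a6, a7⟩ := exists_two_notMem_Icc
    ((H.filter fun p => p.1 = x).image Prod.snd) (2 * m) (Finset.card_image_le.trans (by omega)) b
  refine ⟨x, i, j, hx.1, hx.2, a1, by omega, a3, by omega, a5, fun e => a6 ?_, fun e => a7 ?_⟩
  · exact Finset.mem_image.2 ⟨_, Finset.mem_filter.2 ⟨e, rfl⟩, rfl⟩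
  · exact Finset.mem_image.2 ⟨_, Finset.mem_filter.2 ⟨e, rfl⟩, rfl⟩

theorem kd_le {p q : ℤ × ℤ} {c : ℤ} (h : kd p q = c) :
    p.1 - q.1 ≤ c ∧ q.1 - p.1 ≤ c ∧ p.2 - q.2 ≤ c ∧ q.2 - p.2 ≤ c := by
  simp only [kd] at h
  omega

theorem kd_eq {p q : ℤ × ℤ} {c : ℤ} (h : kd p q = c) :
    p.1 - q.1 = c ∨ q.1 - p.1 = c ∨ p.2 - q.2 = c ∨ q.2 - p.2 = c := by
  simp only [kd] at h
  omega

theorem arith {a z w v t : ℤ × ℤ} {c D D' e s : ℤ} (hs : s = 1 ∨ s = -1) (hc : 0 < c) (he : 0 < e)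
    (h1 : kd a z = c) (h2 : kd a w = c) (h3 : kd z v = D - c) (h4 : kd w v = D - c)
    (h5 : kd z t = D' - c) (h6 : kd w t = D' - c) (h7 : kd a t = D') (h8 : kd z w = e)
    (h : v.1 - a.1 = s * D) : t.1 - a.1 = s * D' := by
  have h1 := kd_le h1
  have h2 := kd_le h2
  have h3 := kd_le h3
  have h4 := kd_le h4
  have h5 := kd_le h5
  have h6 := kd_le h6
  have h7 := kd_eq h7
  have h8 := kd_eq h8
  rcases hs with rfl | rfl <;> omega

variable {n k : ℤ} {U : ℤ × ℤ → Prop} {X Y : ℤ × ℤ → ℤ}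

/-- A pair of good cells whose horizontal distance is much larger than the vertical one. -/
def Th (n k : ℤ) (U : ℤ × ℤ → Prop) (ε : ℤ) (u v : ℤ × ℤ) : Prop :=
  InBox n v ∧ U v ∧ v.2 - u.2 + 12 * k ≤ ε * (v.1 - u.1) ∧ u.2 - v.2 + 12 * k ≤ ε * (v.1 - u.1)

theorem transfer (h : Iso n U X Y) (_hk : 1 ≤ k) (hn : 96 * k + 16 ≤ n) (hU : Two k U) {ε σ : ℤ}
    (hε : ε = 1 ∨ ε = -1) (hσ : σ = 1 ∨ σ = -1) {u v t : ℤ × ℤ} (hu : InBox n u) (hu' : U u)
    (hv : Th n k U ε u v) (ht : Th n k U ε u t) (hP : X v - X u = σ * (v.1 - u.1)) :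
    X t - X u = σ * (t.1 - u.1) := by
  obtain ⟨v1, v2, v3, v4⟩ := hv
  obtain ⟨t1, t2, t3, t4⟩ := ht
  obtain ⟨x, y, y', a1, a2, a3, a4, a5, a6, a7, a8, a9⟩ :=
    hU (if ε = 1 then u.1 + 3 * k else u.1 - 6 * k + 1) (min u.2 (n - 2 * k - 2))
  have b1 : 3 * k ≤ ε * (x - u.1) ∧ ε * (x - u.1) < 6 * k := by
    rcases hε with rfl | rfl
    · rw [if_pos rfl] at a1 a2
      omega
    · rw [if_neg (by omega)] at a1 a2
      omega
  clear a1 a2
  have hz : ∀ r, min u.2 (n - 2 * k - 2) ≤ r → r ≤ min u.2 (n - 2 * k - 2) + 2 * k + 1 →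
      InBox n (x, r) ∧ kd u (x, r) = ε * (x - u.1) ∧
        kd (x, r) v = ε * (v.1 - u.1) - ε * (x - u.1) ∧
        kd (x, r) t = ε * (t.1 - u.1) - ε * (x - u.1) := fun r r1 r2 => by
    have r3 : r - u.2 ≤ 2 * k + 1 ∧ u.2 - r ≤ 2 * k + 1 ∧ 0 ≤ r ∧ r < n := by
      simp only [InBox] at hu
      omega
    clear r1 r2 a3 a4 a5 a6
    simp only [InBox, kd] at hu v1 t1 ⊢
    rcases hε with rfl | rfl <;> refine ⟨?_, ?_, ?_, ?_⟩ <;> omega
  obtain ⟨z1, z2, z3, z4⟩ := hz y a3 a4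
  obtain ⟨w1, w2, w3, w4⟩ := hz y' a5 a6
  have e1 : kd u t = ε * (t.1 - u.1) := by
    simp only [kd]
    rcases hε with rfl | rfl <;> omega
  have e2 : 0 < kd (x, y) (x, y') := by
    rw [kd_same]
    omega
  have := arith (s := σ * ε) (by rcases hε with rfl | rfl <;> omega) (by omega) e2
    ((h.iso _ _ hu hu' z1 a8).trans z2) ((h.iso _ _ hu hu' w1 a9).trans w2)
    ((h.iso _ _ z1 a8 v1 v2).trans z3) ((h.iso _ _ w1 a9 v1 v2).trans w3)
    ((h.iso _ _ z1 a8 t1 t2).trans z4) ((h.iso _ _ w1 a9 t1 t2).trans w4)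
    ((h.iso _ _ hu hu' t1 t2).trans e1) (h.iso _ _ z1 a8 w1 a9)
    (by rcases hε with rfl | rfl <;> rcases hσ with rfl | rfl <;> simp only <;> omega)
  rcases hε with rfl | rfl <;> rcases hσ with rfl | rfl <;> simp only at this <;> omega

theorem spread (h : Iso n U X Y) (hk : 1 ≤ k) (hn : 96 * k + 16 ≤ n) (hU : Two k U) {σ : ℤ}
    (hσ : σ = 1 ∨ σ = -1) {l r : ℤ × ℤ} (hl : U l) (hr : U r)
    (l1 : 0 ≤ l.1 ∧ l.1 < 3 * k ∧ n / 2 ≤ l.2 ∧ l.2 ≤ n / 2 + 2 * k + 1)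
    (r1 : n - 3 * k ≤ r.1 ∧ r.1 < n ∧ n / 2 ≤ r.2 ∧ r.2 ≤ n / 2 + 2 * k + 1)
    (hP : X r - X l = σ * (r.1 - l.1)) (u : ℤ × ℤ) (hu : InBox n u) (hu' : U u) :
    X u = σ * u.1 + (X l - σ * l.1) := by
  have bl : InBox n l := by simp only [InBox]; omega
  have br : InBox n r := by simp only [InBox]; omega
  have hu2 := hu
  simp only [InBox] at hu2
  by_cases c : 2 * u.1 ≤ n
  · obtain ⟨x, y, -, a1, a2, a3, a4, -, -, -, a8, -⟩ := hU (n - 3 * k) (min u.2 (n - 2 * k - 2))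
    have b : InBox n (x, y) := by simp only [InBox]; omega
    have p1 := transfer h hk hn hU (.inl rfl) hσ bl hl (t := (x, y))
      ⟨br, hr, by omega, by omega⟩ ⟨b, a8, by simp only; omega, by simp only; omega⟩ hP
    have p2 := transfer h hk hn hU (.inr rfl) hσ b a8 (v := l) (t := u)
      ⟨bl, hl, by simp only; omega, by simp only; omega⟩
      ⟨hu, hu', by simp only; omega, by simp only; omega⟩ (by linear_combination -p1)
    linear_combination p1 + p2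
  · obtain ⟨x, y, -, a1, a2, a3, a4, -, -, -, a8, -⟩ := hU 0 (min u.2 (n - 2 * k - 2))
    have b : InBox n (x, y) := by simp only [InBox]; omega
    have p1 := transfer h hk hn hU (.inr rfl) hσ br hr (v := l) (t := (x, y))
      ⟨bl, hl, by omega, by omega⟩ ⟨b, a8, by simp only; omega, by simp only; omega⟩
      (by linear_combination -hP)
    have p2 := transfer h hk hn hU (.inl rfl) hσ b a8 (v := r) (t := u)
      ⟨br, hr, by simp only; omega, by simp only; omega⟩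
      ⟨hu, hu', by simp only; omega, by simp only; omega⟩ (by linear_combination -p1)
    linear_combination hP + p1 + p2

theorem rv_ex (n c : ℤ) {σ : ℤ} (hσ : σ = 1 ∨ σ = -1) :
    ∃ (r : Bool) (t : ℤ), (∀ x, σ * x + c = rv n r (x + t)) ∧
      ∀ x y, rv n r (x + t) = rv n r (y + t) → x = y := by
  rcases hσ with rfl | rfl
  · exact ⟨false, c, fun x => by simp [rv], fun x y => by simp [rv]⟩
  · exact ⟨true, n - 1 - c, fun x => by simp only [rv, if_true]; omega,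
      fun x y => by simp only [rv, if_true]; omega⟩

theorem one_coord (h : Iso n U X Y) (hk : 1 ≤ k) (hn : 96 * k + 16 ≤ n) (hU : Two k U) :
    ∃ (r : Bool) (t : ℤ), (∀ x y, rv n r (x + t) = rv n r (y + t) → x = y) ∧
      ((∀ u, InBox n u → U u → X u = rv n r (u.1 + t)) ∨
        ∀ u, InBox n u → U u → Y u = rv n r (u.1 + t)) := by
  obtain ⟨x, y, -, a1, a2, a3, a4, -, -, -, a8, -⟩ := hU 0 (n / 2)
  obtain ⟨x', y', -, b1, b2, b3, b4, -, -, -, b8, -⟩ := hU (n - 3 * k) (n / 2)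
  have e : kd (x, y) (x', y') = x' - x := by
    simp only [kd]
    omega
  have h1 := kd_eq ((h.iso _ _ (by simp only [InBox]; omega) a8
    (by simp only [InBox]; omega) b8).trans e)
  have key : ∀ {X Y : ℤ × ℤ → ℤ}, Iso n U X Y → ∀ σ : ℤ, σ = 1 ∨ σ = -1 →
      X (x', y') - X (x, y) = σ * (x' - x) → ∃ (r : Bool) (t : ℤ),
        (∀ x y, rv n r (x + t) = rv n r (y + t) → x = y) ∧
        ∀ u, InBox n u → U u → X u = rv n r (u.1 + t) := fun {X _} h σ hσ hP => by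
    obtain ⟨r, t, q1, q2⟩ := rv_ex n (X (x, y) - σ * x) hσ
    exact ⟨r, t, q2, fun u hu hu' => (spread h hk hn hU hσ a8 b8 (by simp only; omega)
      (by simp only; omega) hP u hu hu').trans (q1 _)⟩
  simp only at h1
  rcases h1 with h1 | h1 | h1 | h1
  · obtain ⟨r, t, q1, q2⟩ := key h (-1) (.inr rfl) (by omega)
    exact ⟨r, t, q1, .inl q2⟩
  · obtain ⟨r, t, q1, q2⟩ := key h 1 (.inl rfl) (by omega)
    exact ⟨r, t, q1, .inl q2⟩
  · obtain ⟨r, t, q1, q2⟩ := key h.swap (-1) (.inr rfl) (by omega)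
    exact ⟨r, t, q1, .inr q2⟩
  · obtain ⟨r, t, q1, q2⟩ := key h.swap 1 (.inl rfl) (by omega)
    exact ⟨r, t, q1, .inr q2⟩

theorem iso : IsoS := by
  intro n k H X Y hk hn hH h
  have hU := two_of_card hk H hH
  have hU' : Two k fun u => u.swap ∉ H := fun a b => by
    obtain ⟨x, y, y', a1, a2, a3, a4, a5, a6, a7, a8, a9⟩ := two_of_card hk (H.image Prod.swap)
      (le_trans (by exact_mod_cast Finset.card_image_le) hH) a b
    exact ⟨x, y, y', a1, a2, a3, a4, a5, a6, a7, fun e => a8 (Finset.mem_image.2 ⟨_, e, rfl⟩),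
      fun e => a9 (Finset.mem_image.2 ⟨_, e, rfl⟩)⟩
  obtain ⟨r₁, t₁, -, p⟩ := one_coord h hk hn hU
  obtain ⟨r₂, t₂, j, q⟩ := one_coord h.transpose hk hn hU'
  have hb : ∀ u : ℤ × ℤ, InBox n u → InBox n u.swap := fun u a => by
    simp only [InBox, Prod.fst_swap, Prod.snd_swap] at a ⊢
    omega
  have no : ∀ F : ℤ × ℤ → ℤ, (∀ u, InBox n u → u ∉ H → F u = rv n r₁ (u.1 + t₁)) →
      ¬ ∀ u, InBox n u → u.swap ∉ H → F u.swap = rv n r₂ (u.1 + t₂) := fun F f1 f2 => by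
    obtain ⟨x, y, y', a1, a2, a3, a4, a5, a6, a7, a8, a9⟩ := hU 0 0
    have b1 : InBox n (x, y) := by simp only [InBox]; omega
    have b2 : InBox n (x, y') := by simp only [InBox]; omega
    exact a7 (j _ _ ((f2 _ (hb _ b1) a8).symm.trans ((f1 _ b1 a8).trans
      ((f1 _ b2 a9).symm.trans (f2 _ (hb _ b2) a9)))))
  rcases p with p | p <;> rcases q with q | q
  · exact ⟨r₁, r₂, false, t₁, t₂, fun u a b => Prod.ext (p u a b) (q u.swap (hb u a) b)⟩
  · exact (no X p q).elim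
  · exact (no Y p q).elim
  · exact ⟨r₁, r₂, true, t₁, t₂, fun u a b => Prod.ext (q u.swap (hb u a) b) (p u a b)⟩

end Pool.Agent.MP_3c4208_co.Q
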