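import Pool.Agent.MP_3c4208_co.Q.Spec
import Mathlib.Tactic.Linarith

set_option autoImplicit false

namespace Pool.Agent.MP_3c4208_co.Q

open Pool.Agent.MP_3c4208_co

namespace Main

/-- The four corners: no translation, and equal letters everywhere. -/
theorem corners (h2 : CornS) {n k t₁ t₂ : ℤ} {H : Finset (ℤ × ℤ)} {B B' : ℤ × ℤ → ℕ} (hk : 1 ≤ k)
    (hn : 96 * k + 16 ≤ n) (hH : (H.card : ℤ) ≤ 6 * k * k) (h : Sim n B B')
    (hU : ∀ u, InBox n u → u ∉ H → ∀ p, InBox n p → B' p = B u → p = (u.1 + t₁, u.2 + t₂))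
    (c : ℤ × ℤ) (hc : InBox n c) : B' c = B c := by
  classical
  have key := fun a b : Bool => h2 n k (if a then -t₁ else t₁) (if b then -t₂ else t₂)
    (H.image (symZ n a b false)) (B ∘ symZ n a b false) (B' ∘ symZ n a b false) hk hn
    ((Int.ofNat_le.2 Finset.card_image_le).trans hH)
    (h.comp _ _ _ (symZ_box n a b false) (Function.LeftInverse.injective (symZ_invol n a b))
      (symZ_near n a b false) (symZ_box n a b false) (symZ_invol n a b) (symZ_near n a b false))
    fun u hu hm p hp e => by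
      have := hU _ (symZ_box n a b false u hu)
        (fun m => hm (Finset.mem_image.2 ⟨_, m, symZ_invol n a b u⟩)) _
        (symZ_box n a b false p hp) e
      rw [Prod.ext_iff] at this ⊢
      cases a <;> cases b <;> simp [symZ, rv] at this ⊢ <;> omega
  have t0 : t₁ = 0 ∧ t₂ = 0 := by
    have := (key (decide (t₁ < 0)) (decide (t₂ < 0))).1
    simp only [decide_eq_true_eq] at this
    split_ifs at this <;> omega
  obtain ⟨a, b, k1, k2⟩ : ∃ a b : Bool, 2 * (symZ n a b false c).1 ≤ n - 1 ∧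
      2 * (symZ n a b false c).2 ≤ n - 1 := by
    refine ⟨decide (n - 1 < 2 * c.1), decide (n - 1 < 2 * c.2), ?_, ?_⟩ <;>
      simp only [symZ, rv, Bool.false_eq_true, if_false, decide_eq_true_eq] <;>
      split_ifs <;> omega
  have := (key a b).2 (by simp [t0.1]) (by simp [t0.2]) _ (symZ_box n a b false c hc) k1 k2
  simpa only [Function.comp, symZ_invol] using this

theorem core (h1 : IsoS) (h2 : CornS) {n k : ℤ} {B B' : ℤ × ℤ → ℕ} (h : Sim n B B')
    (h' : Sim n B' B) (H : Finset (ℤ × ℤ)) (hk : 1 ≤ k) (hn : 96 * k + 16 ≤ n)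
    (hH : (H.card : ℤ) ≤ 6 * k * k) (φ : ℤ × ℤ → ℤ × ℤ)
    (φ1 : ∀ u, InBox n u → u ∉ H → InBox n (φ u) ∧ B' (φ u) = B u)
    (φ2 : ∀ u, InBox n u → u ∉ H → ∀ p, InBox n p → B' p = B u → p = φ u)
    (φ3 : ∀ u, InBox n u → u ∉ H → ∀ p, InBox n p → B p = B u → p = u) :
    ∃ r₁ r₂ t, ∀ p, InBox n p → B' (symZ n r₁ r₂ t p) = B p := by
  have hI : Iso n (fun u => u ∉ H) (fun u => (φ u).1) (fun u => (φ u).2) := by
    refine ⟨fun u a b => (φ1 u a b).1, fun u v a b c d => ?_⟩
    by_cases e : u = v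
    · subst e; simp [kd]
    · apply le_antisymm
      · exact h.kd_le a c e (φ2 u a b) (φ2 v c d)
      · refine h'.kd_le (φ1 u a b).1 (φ1 v c d).1 ?_ ?_ ?_
        · intro q
          apply e
          apply φ3 v c d u a
          rw [← (φ1 u a b).2, ← (φ1 v c d).2]
          exact congrArg B' q
        · intro p hp q
          exact φ3 u a b p hp (q.trans (φ1 u a b).2)
        · intro p hp q
          exact φ3 v c d p hp (q.trans (φ1 v c d).2)
  obtain ⟨r₁, r₂, t, t₁, t₂, hσ⟩ := h1 n k H _ _ hk hn hH hI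
  have hs := h.comp id (symZ n r₁ r₂ t) _ (fun _ a => a) Function.injective_id (fun _ _ a => a)
    (symZ_box n _ _ t) (symZ_inv n r₁ r₂ t) (symZ_near n _ _ t)
  have inj : Function.Injective (symZ n r₁ r₂ t) :=
    Function.LeftInverse.injective (symZ_inv' n r₁ r₂ t)
  exact ⟨r₁, r₂, t, corners h2 hk hn hH hs fun u a b q hq e =>
    inj ((φ2 u a b _ (symZ_box n _ _ t q hq) e).trans (hσ u a b))⟩

theorem arith {n r : ℕ} (h1 : n < 4 * r) (h2 : 2500 * r ≤ n ^ 2) :
    ∃ k : ℕ, 1 ≤ k ∧ 96 * k + 16 ≤ n ∧ r ≤ 6 * k * k := by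
  have h3 : 625 < n := by nlinarith
  refine ⟨(n - 16) / 96, by omega, by omega, ?_⟩
  have h4 : n ≤ 115 * ((n - 16) / 96) := by omega
  generalize (n - 16) / 96 = k at h4
  nlinarith [Nat.mul_le_mul h4 h4]

end Main

theorem main (h1 : IsoS) (h2 : CornS) : MainS := by
  classical
  intro n lam hn hs hr B hB
  by_cases hr' : 4 * (lam.filter (fun a => 2 ≤ a)).sum ≤ n
  · exact few_repeats hn hs hr' B hB
  obtain ⟨k, hk1, hk2, hk3⟩ := Main.arith (not_le.1 hr') (hr.resolve_left hr')
  intro B' hB' hw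
  have hn0 : 0 < n := by omega
  set r := (lam.filter (fun a => 2 ≤ a)).sum with hrdef
  let HF : Finset (Fin n × Fin n) := Finset.univ.filter (fun c => ∃ d, d ≠ c ∧ B d = B c)
  have hHF : HF.card ≤ r := by
    have sub : HF ⊆ (Finset.univ.filter (fun i : Fin lam.length => 2 ≤ lam.get i)).biUnion
        (fun i => Finset.univ.filter (fun c => B c = (i : ℕ) + 1)) := by
      intro c hc
      obtain ⟨d, d1, d2⟩ := (Finset.mem_filter.1 hc).2
      obtain ⟨i, hi⟩ := letter_range hs hB c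
      rw [Finset.mem_biUnion]
      refine ⟨i, Finset.mem_filter.2 ⟨Finset.mem_univ _, ?_⟩, by simpa using hi⟩
      rw [← hB i]
      exact Finset.one_lt_card.2 ⟨d, by simpa using d2.trans hi, c, by simpa using hi, d1⟩
    refine (Finset.card_le_card sub).trans (Finset.card_biUnion_le.trans ?_)
    rw [hrdef, ← sum_get_filter]
    exact le_of_eq (Finset.sum_congr rfl (fun i _ => hB i))
  have uniq : ∀ c, c ∉ HF → (∀ d, B d = B c → d = c) ∧ ∃ p, B' p = B c ∧ ∀ d, B' d = B c → d = p := by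
    intro c hc
    have a : ∀ d, B d = B c → d = c := by
      intro d e
      by_contra ne
      exact hc (Finset.mem_filter.2 ⟨Finset.mem_univ _, d, ne, e⟩)
    refine ⟨a, ?_⟩
    obtain ⟨i, hi⟩ := letter_range hs hB c
    have one : lam.get i = 1 := by
      rw [← hB i, Finset.card_eq_one]
      refine ⟨c, ?_⟩
      ext d
      simp only [Finset.mem_filter, Finset.mem_univ, true_and, Finset.mem_singleton]
      exact ⟨fun e => a d (e.trans hi.symm), fun e => e ▸ hi⟩
    have := hB' i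
    rw [one, Finset.card_eq_one] at this
    obtain ⟨p, hp⟩ := this
    have hp' : ∀ d, B' d = (i : ℕ) + 1 ↔ d = p := by
      intro d
      have := Finset.ext_iff.1 hp d
      simpa using this
    exact ⟨p, by rw [hi]; exact (hp' p).2 rfl, fun d e => (hp' d).1 (e.trans hi)⟩
  have uniq2 : ∀ c, ∃ p, c ∉ HF → B' p = B c ∧ ∀ d, B' d = B c → d = p := by
    intro c
    by_cases hc : c ∈ HF
    · exact ⟨c, fun h => absurd hc h⟩
    · obtain ⟨p, hp⟩ := (uniq c hc).2
      exact ⟨p, fun _ => hp⟩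
  choose φ hφ using uniq2
  have hmem : ∀ u, InBox n u → u ∉ HF.image co → toC n hn0 u ∉ HF := fun u hu h1 h2 =>
    h1 (Finset.mem_image.2 ⟨_, h2, co_toC hn0 u hu⟩)
  obtain ⟨r₁, r₂, t, hσ⟩ := Main.core h1 h2 (k := k) (sim_of_words hn0 hw.symm.subset)
    (sim_of_words hn0 hw.subset) (HF.image co) (by omega) (by omega)
    (by exact_mod_cast (Finset.card_image_le.trans hHF).trans hk3)
    (fun u => co (φ (toC n hn0 u)))
    (fun u hu h => ⟨co_box _, by
      simp only [Function.comp, toC_co]; exact (hφ _ (hmem u hu h)).1⟩)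
    (fun u hu h p hp e => by
      rw [← (hφ _ (hmem u hu h)).2 _ e, co_toC hn0 p hp])
    (fun u hu h p hp e => by
      rw [← co_toC hn0 p hp, ← co_toC hn0 u hu, (uniq _ (hmem u hu h)).1 _ e])
  refine ⟨if t then r₂ else r₁, if t then r₁ else r₂, t, ?_⟩
  funext c
  have := hσ (co (squareSym (if t then r₂ else r₁) (if t then r₁ else r₂) t c)) (co_box _)
  rw [co_squareSym, symZ_inv, ← co_squareSym] at this
  simpa [toC_co] using this

end Pool.Agent.MP_3c4208_co.Q
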