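import Pool.Agent.MP_3c4208_co.Q.Spec

set_option autoImplicit false

namespace Pool.Agent.MP_3c4208_co.Q

open Pool.Agent.MP_3c4208_co

namespace Path2

theorem snake (m : ℕ → ℕ) (G : ℕ → ℕ → ℤ × ℤ) (K : ℕ)
    (h1 : ∀ i ≤ K, ∀ j, j < m i → Near (G i j) (G i (j + 1)))
    (h2 : ∀ i < K, Near (G i (m i)) (G (i + 1) 0))
    (h3 : ∀ i ≤ K, ∀ i' ≤ K, ∀ j ≤ m i, ∀ j' ≤ m i', G i j = G i' j' → i = i' ∧ j = j') :
    ∃ L : List (ℤ × ℤ), L.Nodup ∧ L.IsChain Near ∧ L.getLast? = some (G K (m K)) ∧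
      (∀ p, p ∈ L ↔ ∃ i ≤ K, ∃ j ≤ m i, G i j = p) ∧
      ∀ i ≤ K, ∀ j, j < m i → Cons L (G i j) (G i (j + 1)) := by
  induction K with
  | zero =>
    refine ⟨(List.range (m 0 + 1)).map (G 0),
      rm_nodup _ _ fun i hi j hj e => (h3 0 le_rfl 0 le_rfl i (by omega) j (by omega) e).2,
      rm_chain _ _ fun j hj => h1 0 le_rfl j (by omega), rm_last _ _, fun p => ?_,
      fun i hi j hj => ?_⟩
    · simp only [List.mem_map, List.mem_range, Nat.le_zero, exists_eq_left, Nat.lt_succ_iff]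
    · obtain rfl : i = 0 := by omega
      exact Or.inl (rm_infix _ _ j (by omega))
  | succ K ih =>
    obtain ⟨L, l1, l2, l3, l4, l5⟩ := ih (fun i hi => h1 i (by omega)) (fun i hi => h2 i (by omega))
      fun i hi i' hi' => h3 i (by omega) i' (by omega)
    obtain ⟨M, m1, m2, m3, m4, m5, m6⟩ := append_step L _ (G (K + 1)) (m (K + 1)) l1 l2 l3
      (h2 K (by omega)) (fun j hj => h1 _ le_rfl j (by omega))
      (fun i hi j hj e => (h3 _ le_rfl _ le_rfl i (by omega) j (by omega) e).2)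
      fun j hj hm => by
        obtain ⟨i, hi, j', hj', e⟩ := (l4 _).1 hm
        have := (h3 i (by omega) _ le_rfl j' hj' j (by omega) e).1
        omega
    refine ⟨M, m1, m2, m3, fun p => ?_, fun i hi j hj => ?_⟩
    · rw [m4, l4]
      constructor
      · rintro (⟨i, hi, j, hj, e⟩ | ⟨j, hj, e⟩)
        · exact ⟨i, by omega, j, hj, e⟩
        · exact ⟨K + 1, le_rfl, j, by omega, e⟩
      · rintro ⟨i, hi, j, hj, e⟩
        rcases Nat.lt_or_ge K i with k | k
        · obtain rfl : i = K + 1 := by omega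
          exact Or.inr ⟨j, by omega, e⟩
        · exact Or.inl ⟨i, k, j, hj, e⟩
    · rcases Nat.lt_or_ge K i with k | k
      · obtain rfl : i = K + 1 := by omega
        exact m6 j (by omega)
      · exact m5 _ _ (l5 i k j hj)

/-- Strands on intervals `[lo i, t]`, read upwards or downwards. -/
theorem snake2 (t : ℤ) (lo : ℕ → ℤ) (d : ℕ → Prop) (C : ℕ → ℤ → ℤ × ℤ) (K : ℕ)
    (h0 : ∀ i ≤ K, lo i ≤ t)
    (h1 : ∀ i ≤ K, ∀ x, Near (C i x) (C i (x + 1)))
    (h2 : ∀ i < K, ∀ x y, (d i ∧ x = t ∨ ¬ d i ∧ x = lo i) →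
      (d (i + 1) ∧ y = lo (i + 1) ∨ ¬ d (i + 1) ∧ y = t) → Near (C i x) (C (i + 1) y))
    (h3 : ∀ i ≤ K, ∀ i' ≤ K, ∀ x x', lo i ≤ x → x ≤ t → lo i' ≤ x' → x' ≤ t → C i x = C i' x' →
      i = i' ∧ x = x') :
    ∃ L : List (ℤ × ℤ), L.Nodup ∧ L.IsChain Near ∧
      (∀ p, p ∈ L ↔ ∃ i ≤ K, ∃ x, lo i ≤ x ∧ x ≤ t ∧ C i x = p) ∧
      ∀ i ≤ K, ∀ x, lo i ≤ x → x < t → Cons L (C i x) (C i (x + 1)) := by
  classical
  obtain ⟨L, l1, l2, -, l4, l5⟩ := snake (fun i => (t - lo i).toNat)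
    (fun i j => C i (if d i then lo i + j else t - j)) K
    (fun i hi j _ => by
      by_cases k : d i
      · simp only [if_pos k, Nat.cast_add, Nat.cast_one, ← add_assoc]
        exact h1 i hi _
      · simp only [if_neg k]
        have := (h1 i hi (t - ((j + 1 : ℕ) : ℤ))).symm
        rwa [show t - ((j + 1 : ℕ) : ℤ) + 1 = t - j by push_cast; ring] at this)
    (fun i hi => h2 i hi _ _
      (by have := h0 i hi.le; by_cases k : d i <;> simp only [k, if_true, if_false] <;>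
            simp <;> omega)
      (by by_cases k : d (i + 1) <;> simp [k]))
    fun i hi i' hi' j hj j' hj' e => by
      have a := h0 i hi
      have a' := h0 i' hi'
      obtain ⟨rfl, e2⟩ := h3 i hi i' hi' _ _ (by split_ifs <;> omega) (by split_ifs <;> omega)
        (by split_ifs <;> omega) (by split_ifs <;> omega) e
      refine ⟨rfl, ?_⟩
      split_ifs at e2 <;> omega
  refine ⟨L, l1, l2, fun p => (l4 p).trans ⟨?_, ?_⟩, fun i hi x a b => ?_⟩
  · rintro ⟨i, hi, j, hj, e⟩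
    have := h0 i hi
    exact ⟨i, hi, _, by split_ifs <;> omega, by split_ifs <;> omega, e⟩
  · rintro ⟨i, hi, x, a, b, e⟩
    by_cases k : d i
    · exact ⟨i, hi, (x - lo i).toNat, by omega, by
        rw [if_pos k, ← e]; congr 1; omega⟩
    · exact ⟨i, hi, (t - x).toNat, by omega, by
        rw [if_neg k, ← e]; congr 1; omega⟩
  · by_cases k : d i
    · have := l5 i hi (x - lo i).toNat (by omega)
      simp only [if_pos k] at this
      rwa [show lo i + ((x - lo i).toNat : ℤ) = x by omega,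
        show lo i + (((x - lo i).toNat + 1 : ℕ) : ℤ) = x + 1 by omega] at this
    · have := (l5 i hi (t - x - 1).toNat (by omega)).symm
      simp only [if_neg k] at this
      rwa [show t - (((t - x - 1).toNat + 1 : ℕ) : ℤ) = x by omega,
        show t - ((t - x - 1).toNat : ℤ) = x + 1 by omega] at this

theorem lip (f : ℤ → ℤ) (l t : ℤ)
    (h : ∀ x, l ≤ x → x < t → f x - f (x + 1) ≤ 1 ∧ f (x + 1) - f x ≤ 1) (x : ℤ) (hx : l ≤ x)
    (j : ℕ) (hj : x + j ≤ t) : f x - f (x + j) ≤ j ∧ f (x + j) - f x ≤ j := by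
  induction j with
  | zero => simp
  | succ j ih =>
    have a := ih (by omega)
    have b := h (x + j) (by omega) (by omega)
    rw [show x + ((j + 1 : ℕ) : ℤ) = x + j + 1 by omega]
    omega

theorem lip2 (f : ℤ → ℤ) (l t : ℤ)
    (h : ∀ x, l ≤ x → x < t → f x - f (x + 1) ≤ 1 ∧ f (x + 1) - f x ≤ 1) (x u : ℤ) (hx : l ≤ x)
    (hx' : x ≤ t) (hu : l ≤ u) (hu' : u ≤ t) : f u - max (u - x) (x - u) ≤ f x := by
  rcases le_total x u with k | k
  · have := lip f l t h x hx (u - x).toNat (by omega)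
    rw [show x + ((u - x).toNat : ℤ) = u by omega] at this
    omega
  · have := lip f l t h u hu (x - u).toNat (by omega)
    rw [show u + ((x - u).toNat : ℤ) = x by omega] at this
    omega

/-- The lower end of the strand `i`. -/
def Lo (n a b s c i l : ℤ) : Prop :=
  (i < c ∧ l = a) ∨ (c ≤ i ∧ i < n ∧ l = s) ∨ (n ≤ i ∧ i < n + s - a ∧ l = c) ∨
    (n + s - a ≤ i ∧ l = b)

theorem tr {n q a b s c i l l' x y : ℤ} (h1 : a ≤ s) (h2 : s + 1 ≤ n - q) (h3 : b ≤ s) (hq : 1 ≤ q)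
    (hc : c = b ∨ c = b + 1) (hc' : (n - 1 - c) % 2 = 0) (a1 : Lo n a b s c i l)
    (a2 : Lo n a b s c (i + 1) l')
    (hx : ((i < n ∧ (i + c) % 2 = 1) ∨ (n ≤ i ∧ (i - n) % 2 = 1)) ∧ x = n - 1 ∨
      ¬ ((i < n ∧ (i + c) % 2 = 1) ∨ (n ≤ i ∧ (i - n) % 2 = 1)) ∧ x = l)
    (hy : ((i + 1 < n ∧ (i + 1 + c) % 2 = 1) ∨ (n ≤ i + 1 ∧ (i + 1 - n) % 2 = 1)) ∧ y = l' ∨
      ¬ ((i + 1 < n ∧ (i + 1 + c) % 2 = 1) ∨ (n ≤ i + 1 ∧ (i + 1 - n) % 2 = 1)) ∧ y = n - 1) :
    (x ≤ n - q ∨ n - 1 ≤ x) ∧ (y ≤ n - q ∨ n - 1 ≤ y) ∧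
      (i + 1 = n → x = s ∧ y = n - 1) ∧ (i + 1 ≠ n → x - y ≤ 1 ∧ y - x ≤ 1) := by
  unfold Lo at a1 a2
  have b1 : l ≤ n - q := by omega
  have b2 : l' ≤ n - q := by omega
  refine ⟨by omega, by omega, fun e => ?_, fun e => ?_⟩
  · have : l = s := by omega
    omega
  · rcases lt_or_ge i n with k | k
    · have k1 : ¬ n ≤ i := by omega
      have k2 : ¬ n ≤ i + 1 := by omega
      have k3 : i + 1 < n := by omega
      simp only [k, k1, k2, k3, true_and, false_and, or_false] at hx hy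
      have : (i + c) % 2 = 1 ∨ l = l' := by omega
      omega
    · have k1 : ¬ i < n := by omega
      have k2 : ¬ i + 1 < n := by omega
      have k3 : n ≤ i + 1 := by omega
      simp only [k, k1, k2, k3, true_and, false_and, false_or] at hx hy
      have : l - l' ≤ 1 ∧ l' - l ≤ 1 := by omega
      omega

end Path2

open Path2 in
theorem path (h : FolS) : PathS := by
  classical
  intro n k a b H hk hn hH ha ha' hb hb'
  obtain ⟨s, hs⟩ : ∃ s : ℤ, s = (n + 1) / 2 := ⟨_, rfl⟩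
  obtain ⟨c, hc, hc'⟩ : ∃ c : ℤ, (c = b ∨ c = b + 1) ∧ (n - 1 - c) % 2 = 0 := by
    by_cases e : (n - 1 - b) % 2 = 0
    · exact ⟨b, Or.inl rfl, e⟩
    · exact ⟨b + 1, Or.inr rfl, by omega⟩
  obtain ⟨g, g1, g2, g3, g4⟩ := h n n k H hk (by omega) hH
  obtain ⟨f, f1, f2, f3, f4⟩ := h n s k (H.image Prod.swap) hk (by omega)
    ((Int.ofNat_le.2 Finset.card_image_le).trans hH)
  obtain ⟨lo, lo1⟩ : ∃ lo : ℕ → ℤ, ∀ i : ℕ, Lo n a b s c i (lo i) :=
    ⟨fun i => if (i : ℤ) < c then a else if (i : ℤ) < n then s else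
      if (i : ℤ) < n + s - a then c else b, fun i => by
        simp only [Lo]; split_ifs <;> omega⟩
  have lo2 := lo1
  simp only [Lo] at lo1
  obtain ⟨C, C1, C2⟩ : ∃ C : ℕ → ℤ → ℤ × ℤ, (∀ (i : ℕ) x, (i : ℤ) < n → C i x = (x, g x i)) ∧
      ∀ (i : ℕ) x, n ≤ i → C i x = (f x (n + s - 1 - i), x) :=
    ⟨fun i x => if (i : ℤ) < n then (x, g x i) else (f x (n + s - 1 - i), x),
      fun i x e => if_pos e, fun i x e => if_neg (not_lt.2 e)⟩
  -- where the strands lie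
  have R : ∀ (i : ℕ) x, (i : ℤ) < n → lo i ≤ x →
      0 ≤ g x i ∧ g x i < n ∧ a ≤ x ∧ (s ≤ x ∨ g x i < c) := fun i x e l => by
    have := (g1 x i).2 ⟨by omega, e⟩
    have := g2 x i
    have := lo1 i
    omega
  have V : ∀ (i : ℕ) x, n ≤ i → (i : ℤ) < n + s → lo i ≤ x →
      0 ≤ f x (n + s - 1 - i) ∧ f x (n + s - 1 - i) < s ∧ b ≤ x ∧
        (c ≤ x ∨ f x (n + s - 1 - i) < a) := fun i x e e' l => by
    have := (f1 x (n + s - 1 - i)).2 ⟨by omega, by omega⟩
    have := f2 x (n + s - 1 - i)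
    have := lo1 i
    omega
  obtain ⟨L, l1, l2, l3, l4⟩ := snake2 (n - 1) lo
    (fun i => ((i : ℤ) < n ∧ (i + c) % 2 = 1) ∨ (n ≤ i ∧ (i - n) % 2 = 1)) C (n + s - 1).toNat
    (fun i _ => by have := lo1 i; omega)
    (fun i _ x => by
      rcases lt_or_ge (i : ℤ) n with e | e
      · have := g3 x i
        simp only [C1 i _ e, Near]
        omega
      · have := f3 x (n + s - 1 - i)
        simp only [C2 i _ e, Near]
        omega)
    (fun i hi x y hx hy => by
      obtain ⟨a1, a2, a3, a4⟩ := tr (q := 24 * k + 4) (by omega) (by omega) (by omega) (by omega) hc hc'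
        (lo2 i) (lo2 (i + 1)) hx hy
      rcases lt_or_ge (i : ℤ) n with e | e
      · rcases lt_or_ge ((i + 1 : ℕ) : ℤ) n with e' | e'
        · rw [C1 i _ e, C1 _ _ e', g2 x _ a1, g2 y _ a2]
          simp only [Near]
          omega
        · rw [C1 i _ e, C2 _ _ e', g2 x _ a1, f2 y _ a2]
          simp only [Near]
          omega
      · rw [C2 i _ e, C2 (i + 1) _ (by omega), f2 x _ a1, f2 y _ a2]
        simp only [Near]
        omega)
    fun i hi i' hi' x x' a1 a2 a3 a4 e => by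
      rcases lt_or_ge (i : ℤ) n with k | k <;> rcases lt_or_ge (i' : ℤ) n with k' | k'
      · rw [C1 i _ k, C1 i' _ k', Prod.mk.injEq] at e
        obtain ⟨rfl, e⟩ := e
        exact ⟨by have := (g x).injective e; omega, rfl⟩
      · rw [C1 i _ k, C2 i' _ k', Prod.mk.injEq] at e
        have := R i x k a1
        have := V i' x' k' (by omega) a3
        omega
      · rw [C2 i _ k, C1 i' _ k', Prod.mk.injEq] at e
        have := R i' x' k' a3
        have := V i x k (by omega) a1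
        omega
      · rw [C2 i _ k, C2 i' _ k', Prod.mk.injEq] at e
        obtain ⟨e, rfl⟩ := e
        exact ⟨by have := (f x).injective e; omega, rfl⟩
  refine ⟨L, l1, l2, fun p => (l3 p).trans ⟨?_, ?_⟩, fun ψ t₁ t₂ hψ hu p hp => ?_⟩
  · rintro ⟨i, hi, x, a1, a2, rfl⟩
    rcases lt_or_ge (i : ℤ) n with e | e
    · have := R i x e a1
      simp only [C1 i _ e, InBox]
      omega
    · have := V i x e (by omega) a1
      simp only [C2 i _ e, InBox]
      omega
  · obtain ⟨x, y⟩ := p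
    simp only [InBox]
    rintro ⟨⟨a1, a2, a3, a4⟩, a5⟩
    by_cases e : a ≤ x ∧ (s ≤ x ∨ y < c)
    · obtain ⟨z, rfl⟩ := (g x).surjective y
      have b1 := (g1 x z).1 ⟨a3, a4⟩
      have b2 := g2 x z
      obtain ⟨i, rfl⟩ := Int.eq_ofNat_of_zero_le b1.1
      have := lo1 i
      exact ⟨i, by omega, x, by omega, by omega, C1 i _ b1.2⟩
    · obtain ⟨z, rfl⟩ := (f y).surjective x
      have b1 := (f1 y z).1 ⟨a1, by omega⟩
      have b2 := f2 y z
      obtain ⟨i, hi⟩ := Int.eq_ofNat_of_zero_le (show 0 ≤ n + s - 1 - z by omega)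
      have := lo1 i
      refine ⟨i, by omega, y, by omega, by omega, ?_⟩
      rw [C2 i _ (by omega), show n + s - 1 - i = z by omega]
  · obtain ⟨i, hi, x, a1, a2, rfl⟩ := (l3 p).1 hp
    have b0 := lo1 i
    rcases lt_or_ge (i : ℤ) n with e | e
    · obtain ⟨u, u1, u2, u3⟩ := g4 i (by omega) e
      have b1 := lip2 (fun x => (ψ (C i x)).1) (lo i) (n - 1)
        (fun x c1 c2 => ⟨(hψ _ _ (l4 i hi x c1 c2)).1, (hψ _ _ (l4 i hi x c1 c2)).2.1⟩) x u a1 a2
        (by omega) (by omega)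
      have b2 := hu (C i u) ((l3 _).2 ⟨i, hi, u, by omega, by omega, rfl⟩) (by rwa [C1 i _ e])
      have b3 : (ψ (C i u)).1 = u + t₁ := by rw [b2, C1 i _ e]
      have b4 := R i x e a1
      simp only [b3] at b1
      omega
    · obtain ⟨u, u1, u2, u3⟩ := f4 (n + s - 1 - i) (by omega) (by omega)
      have b1 := lip2 (fun x => (ψ (C i x)).2) (lo i) (n - 1)
        (fun x c1 c2 => ⟨(hψ _ _ (l4 i hi x c1 c2)).2.2.1, (hψ _ _ (l4 i hi x c1 c2)).2.2.2⟩) x u
        a1 a2 (by omega) (by omega)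
      have b2 := hu (C i u) ((l3 _).2 ⟨i, hi, u, by omega, by omega, rfl⟩) (by
        rw [C2 i _ e]
        exact fun hm => u3 (Finset.mem_image.2 ⟨_, hm, rfl⟩))
      have b3 : (ψ (C i u)).2 = u + t₂ := by rw [b2, C2 i _ e]
      have b4 := V i x e (by omega) a1
      simp only [b3] at b1
      omega

end Pool.Agent.MP_3c4208_co.Q
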